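import Pool.Agent.K1H77.CG.Stm

/-! Summation (helper68, for helper77, project CG). -/

set_option autoImplicit false

open Finset Filter Topology

namespace Pool.Agent.K1H68.CG

open Pool.Agent.K1H77.CG

/-- `B ^ t / √(t!)` is summable -/
theorem summable_term (B : ℝ) (hB : 0 < B) :
    Summable (fun t : ℕ => B ^ t / Real.sqrt (t.factorial : ℝ)) := by
  refine summable_of_ratio_norm_eventually_le (r := 1 / 2) (by norm_num) ?_
  obtain ⟨N, hN⟩ := exists_nat_ge (4 * B ^ 2)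
  filter_upwards [eventually_ge_atTop N] with t ht
  have h1 : (0 : ℝ) < (t.factorial : ℝ) := by exact_mod_cast t.factorial_pos
  have h2 : 4 * B ^ 2 ≤ (t : ℝ) + 1 := by
    have : (N : ℝ) ≤ t := by exact_mod_cast ht
    linarith
  have h3 : 0 < Real.sqrt (t.factorial : ℝ) := Real.sqrt_pos.2 h1
  have h4 : 0 < Real.sqrt ((t : ℝ) + 1) := Real.sqrt_pos.2 (by positivity)
  have h5 : 2 * B ≤ Real.sqrt ((t : ℝ) + 1) := by
    apply Real.le_sqrt_of_sq_le
    nlinarith
  have h6 : Real.sqrt (((t + 1).factorial : ℕ) : ℝ) =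
      Real.sqrt ((t : ℝ) + 1) * Real.sqrt (t.factorial : ℝ) := by
    rw [← Real.sqrt_mul (by positivity), Nat.factorial_succ]
    push_cast
    rfl
  rw [Real.norm_of_nonneg (by positivity), Real.norm_of_nonneg (by positivity), h6, pow_succ,
    div_le_iff₀ (by positivity)]
  have h7 : 1 / 2 * (B ^ t / Real.sqrt (t.factorial : ℝ)) *
      (Real.sqrt ((t : ℝ) + 1) * Real.sqrt (t.factorial : ℝ)) =
      B ^ t * (1 / 2 * Real.sqrt ((t : ℝ) + 1)) := by
    field_simp
  rw [h7]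
  refine mul_le_mul_of_nonneg_left ?_ (by positivity)
  linarith

open Classical in
theorem mem_Wr0 {n : ℕ} (σ : Equiv.Perm (HE n)) : σ ∈ Wr0 n ↔ ∀ h, (σ h).1 = h.1 := by
  simp [Wr0]

theorem mem_Wr {n : ℕ} (σ : Equiv.Perm (HE n)) :
    σ ∈ Wr n ↔ ∃ π : Equiv.Perm (Fin n), ∀ h, (σ h).1 = π h.1 := by
  simp [Wr]

theorem tch_le {n : ℕ} (π : Equiv.Perm (Fin n)) (σ : Equiv.Perm (HE n)) : tch π σ ≤ n := by
  unfold tch
  exact (Finset.card_le_univ _).trans (by simp)

theorem mv_eq {n : ℕ} (σ : Equiv.Perm (HE n)) : mv σ = tch 1 σ := by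
  unfold mv tch
  congr 1
  ext v
  simp

theorem fixc_nonneg {n : ℕ} (σ : Equiv.Perm (HE n)) : (0 : ℝ) ≤ (fixc σ : ℝ) := Nat.cast_nonneg _

open Classical in
theorem t_SUM0 (h : S_TERM) : S_SUM0 := by
  obtain ⟨A, B, hA, hB, hT⟩ := h
  refine ⟨∑' t : ℕ, (36 * B) ^ t / Real.sqrt (t.factorial : ℝ), fun k hk => ?_⟩
  have hs := summable_term (36 * B) (by positivity)
  have h1 : ∑ σ ∈ Wr0 (2 * k), (36 : ℝ) ^ mv σ * fixc σ =
      ∑ t ∈ range (2 * k + 1), ∑ σ ∈ (Wr0 (2 * k)).filter (fun σ => tch 1 σ = t),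
        (36 : ℝ) ^ mv σ * fixc σ := by
    rw [Finset.sum_fiberwise_of_maps_to]
    intro σ _
    rw [Finset.mem_range]
    have := tch_le 1 σ
    omega
  have h2 : ∀ t ∈ range (2 * k + 1), ∑ σ ∈ (Wr0 (2 * k)).filter (fun σ => tch 1 σ = t),
        (36 : ℝ) ^ mv σ * fixc σ ≤
      fm (6 * k) * ((36 * B) ^ t / Real.sqrt (t.factorial : ℝ)) := by
    intro t _
    have h3 := hT k 0 0 t hk
    rw [pow_zero, mul_one] at h3
    have h4 : ∑ σ ∈ univ.filter (fun σ : Equiv.Perm (HE (2 * k)) =>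
        (∀ h, (σ h).1 = (1 : Equiv.Perm (Fin (2 * k))) h.1) ∧ tch 1 σ = t), (fixc σ : ℝ) ≤
        fm (6 * k) * (B ^ t / Real.sqrt (t.factorial : ℝ)) := by
      refine le_trans ?_ h3
      refine Finset.single_le_sum (f := fun π : Equiv.Perm (Fin (2 * k)) =>
        ∑ σ ∈ univ.filter (fun σ : Equiv.Perm (HE (2 * k)) =>
        (∀ h, (σ h).1 = π h.1) ∧ tch π σ = t), (fixc σ : ℝ)) ?_ ?_
      · intro π _
        exact Finset.sum_nonneg fun σ _ => fixc_nonneg σ
      · simp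
    have h5 : ∑ σ ∈ (Wr0 (2 * k)).filter (fun σ => tch 1 σ = t), (36 : ℝ) ^ mv σ * fixc σ =
        36 ^ t * ∑ σ ∈ univ.filter (fun σ : Equiv.Perm (HE (2 * k)) =>
        (∀ h, (σ h).1 = (1 : Equiv.Perm (Fin (2 * k))) h.1) ∧ tch 1 σ = t), (fixc σ : ℝ) := by
      rw [Finset.mul_sum]
      refine Finset.sum_congr ?_ ?_
      · ext σ
        rw [Finset.mem_filter, Finset.mem_filter, mem_Wr0]
        simp
      · intro σ hσ
        rw [Finset.mem_filter] at hσ
        rw [mv_eq, hσ.2.2]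
    rw [h5]
    calc (36 : ℝ) ^ t * _ ≤ 36 ^ t * (fm (6 * k) * (B ^ t / Real.sqrt (t.factorial : ℝ))) :=
          mul_le_mul_of_nonneg_left h4 (by positivity)
      _ = fm (6 * k) * ((36 * B) ^ t / Real.sqrt (t.factorial : ℝ)) := by
          rw [mul_pow]
          ring
  rw [h1]
  refine (Finset.sum_le_sum h2).trans ?_
  rw [← Finset.mul_sum, mul_comm]
  refine mul_le_mul_of_nonneg_right ?_ (Nat.cast_nonneg _)
  exact hs.sum_le_tsum _ fun t _ => by positivity

theorem cyc_le {n : ℕ} (π : Equiv.Perm (Fin n)) : π.cycleType.card ≤ π.support.card := by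
  rw [← Equiv.Perm.sum_cycleType]
  have h := Multiset.card_nsmul_le_sum (s := π.cycleType) (a := 1)
    (fun x hx => one_le_two.trans (Equiv.Perm.two_le_of_mem_cycleType hx))
  simpa using h

open Classical in
theorem sum1_bound {A B : ℝ} (hA : 0 < A) (hB : 0 < B)
    (hT : ∀ k s m t : ℕ, 1 ≤ k →
      ∑ π ∈ univ.filter (fun π : Equiv.Perm (Fin (2 * k)) =>
        π.support.card = s ∧ π.cycleType.card = m),
      ∑ σ ∈ univ.filter (fun σ : Equiv.Perm (HE (2 * k)) =>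
        (∀ h, (σ h).1 = π h.1) ∧ tch π σ = t), (fixc σ : ℝ) ≤
    fm (6 * k) * (A / (k : ℝ) ^ (1 / 4 : ℝ)) ^ s * (B ^ t / Real.sqrt t.factorial))
    (k : ℕ) (hk : 1 ≤ k) (hx : 2 * (A / (k : ℝ) ^ (1 / 4 : ℝ)) ≤ 1 / 2) :
    ∑ σ ∈ (Wr (2 * k)).filter (fun σ => ¬ ∀ h, (σ h).1 = h.1), (fixc σ : ℝ) ≤
      fm (6 * k) * (8 * (A / (k : ℝ) ^ (1 / 4 : ℝ)) *
        ∑' t : ℕ, B ^ t / Real.sqrt (t.factorial : ℝ)) := by
  have hs := summable_term B hB
  set S : ℝ := ∑' t : ℕ, B ^ t / Real.sqrt (t.factorial : ℝ) with hS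
  have hS0 : 0 ≤ S := tsum_nonneg fun t => by positivity
  set x : ℝ := A / (k : ℝ) ^ (1 / 4 : ℝ) with hxdef
  have hk0 : (0 : ℝ) < k := by exact_mod_cast hk
  have hx0 : 0 ≤ x := by positivity
  -- the sum over a vertex permutation
  let g : Equiv.Perm (Fin (2 * k)) → ℝ := fun π =>
    ∑ σ ∈ univ.filter (fun σ : Equiv.Perm (HE (2 * k)) => ∀ h, (σ h).1 = π h.1), (fixc σ : ℝ)
  have hg0 : ∀ π, 0 ≤ g π := fun π => Finset.sum_nonneg fun σ _ => fixc_nonneg σ
  let φ : Equiv.Perm (HE (2 * k)) → Equiv.Perm (Fin (2 * k)) := fun σ =>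
    if h : ∃ π : Equiv.Perm (Fin (2 * k)), ∀ h, (σ h).1 = π h.1 then h.choose else 1
  have hφ : ∀ σ ∈ (Wr (2 * k)).filter (fun σ => ¬ ∀ h, (σ h).1 = h.1),
      (∀ h, (σ h).1 = φ σ h.1) ∧ φ σ ≠ 1 := by
    intro σ hσ
    rw [Finset.mem_filter, mem_Wr] at hσ
    have h1 : φ σ = hσ.1.choose := dif_pos hσ.1
    have h2 : ∀ h, (σ h).1 = φ σ h.1 := by
      rw [h1]
      exact hσ.1.choose_spec
    refine ⟨h2, fun h3 => hσ.2 fun h => ?_⟩
    rw [h2 h, h3]
    rfl
  have step1 : ∑ σ ∈ (Wr (2 * k)).filter (fun σ => ¬ ∀ h, (σ h).1 = h.1), (fixc σ : ℝ) ≤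
      ∑ π ∈ univ.filter (fun π : Equiv.Perm (Fin (2 * k)) => π ≠ 1), g π := by
    rw [← Finset.sum_fiberwise_of_maps_to (s := (Wr (2 * k)).filter
      (fun σ => ¬ ∀ h, (σ h).1 = h.1)) (t := univ.filter
      (fun π : Equiv.Perm (Fin (2 * k)) => π ≠ 1)) (g := φ)
      (fun σ hσ => by
        rw [Finset.mem_filter]
        exact ⟨Finset.mem_univ _, (hφ σ hσ).2⟩)]
    refine Finset.sum_le_sum fun π _ => ?_
    refine Finset.sum_le_sum_of_subset_of_nonneg ?_ fun σ _ _ => fixc_nonneg σ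
    intro σ hσ
    rw [Finset.mem_filter] at hσ
    rw [Finset.mem_filter]
    refine ⟨Finset.mem_univ _, fun h => ?_⟩
    rw [← hσ.2]
    exact (hφ σ hσ.1).1 h
  have step2 : ∀ π : Equiv.Perm (Fin (2 * k)), g π = ∑ t ∈ range (2 * k + 1),
      ∑ σ ∈ univ.filter (fun σ : Equiv.Perm (HE (2 * k)) =>
        (∀ h, (σ h).1 = π h.1) ∧ tch π σ = t), (fixc σ : ℝ) := by
    intro π
    change (∑ σ ∈ univ.filter (fun σ : Equiv.Perm (HE (2 * k)) => ∀ h, (σ h).1 = π h.1),
      (fixc σ : ℝ)) = _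
    rw [← Finset.sum_fiberwise_of_maps_to (s := univ.filter
      (fun σ : Equiv.Perm (HE (2 * k)) => ∀ h, (σ h).1 = π h.1)) (t := range (2 * k + 1))
      (g := fun σ => tch π σ) (fun σ _ => by
        rw [Finset.mem_range]
        have := tch_le π σ
        omega)]
    refine Finset.sum_congr rfl fun t _ => ?_
    rw [Finset.filter_filter]
  have step3 : ∀ s m : ℕ, ∑ π ∈ univ.filter (fun π : Equiv.Perm (Fin (2 * k)) =>
      π.support.card = s ∧ π.cycleType.card = m), g π ≤ fm (6 * k) * x ^ s * S := by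
    intro s m
    rw [Finset.sum_congr rfl fun π _ => step2 π, Finset.sum_comm]
    refine (Finset.sum_le_sum fun t _ => hT k s m t hk).trans ?_
    rw [← Finset.mul_sum]
    refine mul_le_mul_of_nonneg_left ?_ (by positivity)
    exact hs.sum_le_tsum _ fun t _ => by positivity
  have step4 : ∀ s : ℕ, ∑ π ∈ univ.filter (fun π : Equiv.Perm (Fin (2 * k)) =>
      π.support.card = s), g π ≤ fm (6 * k) * (2 * x) ^ s * S := by
    intro s
    rw [← Finset.sum_fiberwise_of_maps_to (s := univ.filter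
      (fun π : Equiv.Perm (Fin (2 * k)) => π.support.card = s)) (t := range (s + 1))
      (g := fun π => π.cycleType.card) (fun π hπ => by
        rw [Finset.mem_filter] at hπ
        rw [Finset.mem_range]
        have := cyc_le π
        omega)]
    have h1 : ∀ m ∈ range (s + 1), ∑ π ∈ (univ.filter (fun π : Equiv.Perm (Fin (2 * k)) =>
        π.support.card = s)).filter (fun π => π.cycleType.card = m), g π ≤
        fm (6 * k) * x ^ s * S := by
      intro m _
      rw [Finset.filter_filter]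
      exact step3 s m
    refine (Finset.sum_le_sum h1).trans ?_
    rw [Finset.sum_const, Finset.card_range, nsmul_eq_mul, mul_pow]
    have h2 : ((s + 1 : ℕ) : ℝ) ≤ 2 ^ s := by
      exact_mod_cast Nat.lt_two_pow_self
    calc ((s + 1 : ℕ) : ℝ) * (fm (6 * k) * x ^ s * S) ≤ 2 ^ s * (fm (6 * k) * x ^ s * S) :=
          mul_le_mul_of_nonneg_right h2 (by positivity)
      _ = fm (6 * k) * (2 ^ s * x ^ s) * S := by ring
  have step5 : ∑ π ∈ univ.filter (fun π : Equiv.Perm (Fin (2 * k)) => π ≠ 1), g π ≤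
      ∑ s ∈ (range (2 * k + 1)).filter (fun s => 1 ≤ s), fm (6 * k) * (2 * x) ^ s * S := by
    rw [← Finset.sum_fiberwise_of_maps_to (s := univ.filter
      (fun π : Equiv.Perm (Fin (2 * k)) => π ≠ 1))
      (t := (range (2 * k + 1)).filter (fun s => 1 ≤ s))
      (g := fun π => π.support.card) (fun π hπ => by
        rw [Finset.mem_filter] at hπ
        rw [Finset.mem_filter, Finset.mem_range]
        have h1 := Equiv.Perm.two_le_card_support_of_ne_one hπ.2
        have h2 : π.support.card ≤ 2 * k := (Finset.card_le_univ _).trans (by simp)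
        omega)]
    refine Finset.sum_le_sum fun s _ => ?_
    refine le_trans ?_ (step4 s)
    refine Finset.sum_le_sum_of_subset_of_nonneg ?_ fun π _ _ => hg0 π
    intro π hπ
    rw [Finset.mem_filter] at hπ
    rw [Finset.mem_filter]
    exact ⟨Finset.mem_univ _, hπ.2⟩
  have step6 : ∑ s ∈ (range (2 * k + 1)).filter (fun s => 1 ≤ s), fm (6 * k) * (2 * x) ^ s * S ≤
      fm (6 * k) * (8 * x * S) := by
    have h1 : ∀ s ∈ (range (2 * k + 1)).filter (fun s => 1 ≤ s),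
        (fm (6 * k) : ℝ) * (2 * x) ^ s * S ≤ (fm (6 * k) * (4 * x * S)) * (1 / 2) ^ s := by
      intro s hs'
      rw [Finset.mem_filter] at hs'
      obtain ⟨j, rfl⟩ : ∃ j, s = j + 1 := ⟨s - 1, by omega⟩
      have h2 : (2 * x) ^ j ≤ (1 / 2) ^ j := pow_le_pow_left₀ (by positivity) hx j
      have h3 : (2 * x) ^ (j + 1) ≤ 4 * x * (1 / 2) ^ (j + 1) := by
        rw [pow_succ, pow_succ]
        nlinarith [mul_le_mul_of_nonneg_left h2 hx0]
      calc (fm (6 * k) : ℝ) * (2 * x) ^ (j + 1) * S = (fm (6 * k) * S) * (2 * x) ^ (j + 1) := by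
            ring
        _ ≤ (fm (6 * k) * S) * (4 * x * (1 / 2) ^ (j + 1)) :=
            mul_le_mul_of_nonneg_left h3 (by positivity)
        _ = _ := by ring
    refine (Finset.sum_le_sum h1).trans ?_
    rw [← Finset.mul_sum]
    have h4 : ∑ s ∈ (range (2 * k + 1)).filter (fun s => 1 ≤ s), ((1 : ℝ) / 2) ^ s ≤ 2 := by
      refine le_trans (Finset.sum_le_sum_of_subset_of_nonneg (Finset.filter_subset _ _)
        fun s _ _ => by positivity) (sum_geometric_two_le _)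
    calc (fm (6 * k) * (4 * x * S) : ℝ) * _ ≤ (fm (6 * k) * (4 * x * S)) * 2 :=
          mul_le_mul_of_nonneg_left h4 (by positivity)
      _ = _ := by ring
  exact step1.trans (step5.trans step6)

open Classical in
theorem t_SUM1 (h : S_TERM) : S_SUM1 := by
  obtain ⟨A, B, hA, hB, hT⟩ := h
  set S : ℝ := ∑' t : ℕ, B ^ t / Real.sqrt (t.factorial : ℝ) with hS
  have hS0 : 0 ≤ S := tsum_nonneg fun t => by positivity
  have hlim : Tendsto (fun k : ℕ => A / (k : ℝ) ^ (1 / 4 : ℝ)) atTop (𝓝 0) := by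
    refine Tendsto.div_atTop tendsto_const_nhds ?_
    exact (tendsto_rpow_atTop (by norm_num)).comp tendsto_natCast_atTop_atTop
  have hlim2 : Tendsto (fun k : ℕ => 8 * (A / (k : ℝ) ^ (1 / 4 : ℝ)) * S) atTop (𝓝 0) := by
    have := (hlim.const_mul 8).mul_const S
    simpa using this
  have hev : ∀ᶠ k : ℕ in atTop, 2 * (A / (k : ℝ) ^ (1 / 4 : ℝ)) ≤ 1 / 2 := by
    have := hlim.eventually (gt_mem_nhds (show (0 : ℝ) < 1 / 4 by norm_num))
    filter_upwards [this] with k hk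
    linarith
  unfold S_SUM1
  refine tendsto_of_tendsto_of_tendsto_of_le_of_le' tendsto_const_nhds hlim2 ?_ ?_
  · refine Eventually.of_forall fun k => ?_
    exact div_nonneg (Finset.sum_nonneg fun σ _ => fixc_nonneg σ) (Nat.cast_nonneg _)
  · filter_upwards [hev, eventually_ge_atTop 1] with k hk hk1
    have hf : (0 : ℝ) < fm (6 * k) := by
      have := fm_pos (3 * k)
      rw [show 2 * (3 * k) = 6 * k by ring] at this
      exact_mod_cast this
    rw [div_le_iff₀ hf, mul_comm (8 * (A / (k : ℝ) ^ (1 / 4 : ℝ)) * S)]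
    exact sum1_bound hA hB hT k hk1 hk

end Pool.Agent.K1H68.CG

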